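import Pool.Agent.NH32.LP.J1
import Pool.Agent.NH32.LP.J2
import Pool.Agent.NH32.LP.J3

/-!
# Lipschitz spaces over nets are isomorphic to their `ℓ_∞`-sums
-/

set_option autoImplicit false

namespace Pool.Agent.U555.LN

open Pool.Agent.H266R3.LF Pool.Agent.NH62.Lip Pool.Agent.NH32.LP Pool.Agent.H266R3.BN
open scoped ENNReal
open Filter Topology Gardner

/-- `N` is a net in `X`. -/
def IsNet {X : Type} [NormedAddCommGroup X] (N : Set X) : Prop :=
  ∃ ε δ : ℝ, 0 < ε ∧ 0 < δ ∧ (∀ x ∈ N, ∀ y ∈ N, x ≠ y → ε ≤ dist x y) ∧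
    ∀ x : X, ∃ y ∈ N, dist x y < δ

/-- The data: a projection onto the net, a scale, and separated balls. -/
structure Data {X : Type} [NormedAddCommGroup X] [NormedSpace ℝ X] (N : Set X) where
  e : ℝ
  D : ℝ
  l : ℝ
  π : X → N
  c : ℕ × ℕ → X
  s : ℕ × ℕ → ℝ
  he : 0 < e
  hD : 0 < D
  hl : 1 ≤ l
  hDl : 2 * D < l * e
  hsep : ∀ x y : N, x ≠ y → e ≤ dist x y
  hπ : ∀ z, ‖(π z : X) - z‖ ≤ D
  hπ' : ∀ z (w : N), ‖(w : X) - z‖ < e / 2 → π z = w
  hsD : ∀ t, D ≤ s t
  hsn : ∀ i n : ℕ, (n : ℝ) ≤ s (i, n)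
  hc : ∀ t t', t ≠ t' → 2 * (s t + s t') ≤ ‖c t - c t'‖

section

variable {X : Type} [NormedAddCommGroup X] [NormedSpace ℝ X] {N : Set X}

theorem exists_data [Nontrivial X] (hN : IsNet N) : Nonempty (Data N) := by
  classical
  obtain ⟨ε, δ, hε, hδ, h1, h2⟩ := hN
  choose p hp1 hp2 using h2
  let π : X → N := fun z => if h : ∃ w : N, ‖(w : X) - z‖ < ε / 2 then h.choose else ⟨p z, hp1 z⟩
  obtain ⟨v, hv⟩ : ∃ v : X, ‖v‖ = 1 := by
    obtain ⟨w, hw⟩ := exists_ne (0 : X)
    exact ⟨‖w‖⁻¹ • w, norm_smul_inv_norm hw⟩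
  let D := δ + ε
  have hD : 0 < D := by positivity
  refine ⟨{
    e := ε
    D := D
    l := 2 * D / ε + 1
    π := π
    c := fun t => (4 * (1 + D) * ((Nat.pair t.1 t.2 : ℝ) + 1) ^ 2) • v
    s := fun t => (1 + D) * ((Nat.pair t.1 t.2 : ℝ) + 1)
    he := hε
    hD := hD
    hl := by
      have : 0 < 2 * D / ε := by positivity
      linarith
    hDl := by
      rw [add_mul, div_mul_cancel₀ _ hε.ne']
      linarith
    hsep := fun x y hxy => h1 x x.2 y y.2 (fun h => hxy (Subtype.ext h))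
    hπ := ?_
    hπ' := ?_
    hsD := ?_
    hsn := ?_
    hc := ?_ }⟩
  · intro z
    simp only [π]
    split_ifs with h
    · have := h.choose_spec
      simp only [D]
      linarith
    · have := hp2 z
      rw [dist_comm, dist_eq_norm] at this
      simp only [D]
      linarith
  · intro z w hw
    have h : ∃ w : N, ‖(w : X) - z‖ < ε / 2 := ⟨w, hw⟩
    simp only [π, dif_pos h]
    by_contra hne
    have h3 := h1 h.choose h.choose.2 w w.2 (fun h' => hne (Subtype.ext h'))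
    have h4 := h.choose_spec
    rw [dist_eq_norm] at h3
    have h5 : ‖(h.choose : X) - w‖ ≤ ‖(h.choose : X) - z‖ + ‖(w : X) - z‖ := by
      have : (h.choose : X) - w = (h.choose - z) - (w - z) := by abel
      rw [this]
      exact norm_sub_le _ _
    linarith
  · intro t
    have : (0 : ℝ) ≤ (Nat.pair t.1 t.2 : ℝ) := Nat.cast_nonneg _
    nlinarith
  · intro i n
    have h3 : (n : ℝ) ≤ (Nat.pair i n : ℝ) := Nat.cast_le.2 (Nat.right_le_pair i n)
    have : (0 : ℝ) ≤ (Nat.pair i n : ℝ) := Nat.cast_nonneg _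
    simp only
    nlinarith
  · intro t t' ht
    have hne : Nat.pair t.1 t.2 ≠ Nat.pair t'.1 t'.2 := fun h => ht (by
      have h3 := congrArg Nat.unpair h
      rw [Nat.unpair_pair, Nat.unpair_pair] at h3
      exact h3)
    rw [← sub_smul, norm_smul, hv, mul_one, Real.norm_eq_abs]
    set a : ℝ := (Nat.pair t.1 t.2 : ℝ)
    set b : ℝ := (Nat.pair t'.1 t'.2 : ℝ)
    have ha : 0 ≤ a := Nat.cast_nonneg _
    have hb : 0 ≤ b := Nat.cast_nonneg _
    have e1 : 4 * (1 + D) * (a + 1) ^ 2 - 4 * (1 + D) * (b + 1) ^ 2 =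
        (4 * (1 + D) * (a + b + 2)) * (a - b) := by ring
    have h3 : 1 ≤ |a - b| := by
      rcases lt_or_gt_of_ne hne with h | h
      · have h4 : a + 1 ≤ b := by
          have h6 : Nat.pair t.1 t.2 + 1 ≤ Nat.pair t'.1 t'.2 := h
          have h7 : ((Nat.pair t.1 t.2 + 1 : ℕ) : ℝ) ≤ (Nat.pair t'.1 t'.2 : ℝ) := Nat.cast_le.2 h6
          rwa [Nat.cast_add, Nat.cast_one] at h7
        rw [abs_sub_comm, le_abs]
        left; linarith
      · have h4 : b + 1 ≤ a := by
          have h6 : Nat.pair t'.1 t'.2 + 1 ≤ Nat.pair t.1 t.2 := h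
          have h7 : ((Nat.pair t'.1 t'.2 + 1 : ℕ) : ℝ) ≤ (Nat.pair t.1 t.2 : ℝ) := Nat.cast_le.2 h6
          rwa [Nat.cast_add, Nat.cast_one] at h7
        rw [le_abs]
        left; linarith
    have h5 : 0 ≤ 4 * (1 + D) * (a + b + 2) := by positivity
    rw [e1, abs_mul, abs_of_nonneg h5]
    nlinarith

namespace Data

variable (d : Data N)

/-- the Lipschitz constant of the maps between nets -/
noncomputable def C : ℝ := d.l + 2 * d.D / d.e

theorem s_pos (t : ℕ × ℕ) : 0 < d.s t := lt_of_lt_of_le d.hD (d.hsD t)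

theorem l_pos : 0 < d.l := lt_of_lt_of_le one_pos d.hl

theorem C_nonneg : 0 ≤ d.C := by
  have := d.l_pos; have := d.hD; have := d.he
  unfold C; positivity

theorem C_ge : 1 + 2 * d.D / d.e ≤ d.C := by
  have := d.hl
  unfold C; linarith

theorem dist_π (z z' : X) : dist (d.π z) (d.π z') ≤ ‖z - z'‖ + 2 * d.D := by
  rw [Subtype.dist_eq, dist_eq_norm]
  have : (d.π z : X) - d.π z' = (z - z') + (((d.π z : X) - z) - ((d.π z' : X) - z')) := by abel
  rw [this]
  refine (norm_add_le _ _).trans (add_le_add le_rfl ((norm_sub_le _ _).trans ?_))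
  have := d.hπ z; have := d.hπ z'
  linarith

theorem le_of_ne {x y : N} (h : x ≠ y) : 2 * d.D ≤ 2 * d.D / d.e * dist x y := by
  have h1 := d.hsep x y h
  have h2 := d.he
  have h3 := d.hD
  calc 2 * d.D = 2 * d.D / d.e * d.e := by field_simp
    _ ≤ _ := by gcongr

/-- cut-off functions -/
noncomputable def φ (t : ℕ × ℕ) (x : X) : ℝ := max 0 (min 1 (2 - ‖x - d.c t‖ / d.s t))

theorem φ_nonneg (t : ℕ × ℕ) (x : X) : 0 ≤ d.φ t x := le_max_left _ _

theorem φ_le (t : ℕ × ℕ) (x : X) : d.φ t x ≤ 1 := max_le zero_le_one (min_le_left _ _)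

theorem φ_one {t : ℕ × ℕ} {x : X} (h : ‖x - d.c t‖ ≤ d.s t) : d.φ t x = 1 := by
  have h1 : ‖x - d.c t‖ / d.s t ≤ 1 := by
    rw [div_le_one (d.s_pos t)]; exact h
  unfold φ
  rw [min_eq_left (by linarith), max_eq_right zero_le_one]

theorem φ_zero {t : ℕ × ℕ} {x : X} (h : 2 * d.s t ≤ ‖x - d.c t‖) : d.φ t x = 0 := by
  have h1 : 2 ≤ ‖x - d.c t‖ / d.s t := by
    rw [le_div_iff₀ (d.s_pos t)]; exact h
  unfold φ
  rw [max_eq_left]
  exact (min_le_right _ _).trans (by linarith)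

theorem φ_lip (t : ℕ × ℕ) (x y : X) : |d.φ t x - d.φ t y| ≤ ‖x - y‖ / d.s t := by
  unfold φ
  refine (abs_max_sub_max_le_max (0 : ℝ) _ 0 _).trans (max_le ?_ ?_)
  · rw [sub_self, abs_zero]
    exact div_nonneg (norm_nonneg _) (d.s_pos t).le
  · refine (abs_min_sub_min_le_max (1 : ℝ) _ 1 _).trans (max_le ?_ ?_)
    · rw [sub_self, abs_zero]
      exact div_nonneg (norm_nonneg _) (d.s_pos t).le
    · have e1 : 2 - ‖x - d.c t‖ / d.s t - (2 - ‖y - d.c t‖ / d.s t) =
          (‖y - d.c t‖ - ‖x - d.c t‖) / d.s t := by ring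
      rw [e1, abs_div, abs_of_pos (d.s_pos t)]
      have h1 := abs_norm_sub_norm_le (y - d.c t) (x - d.c t)
      rw [sub_sub_sub_cancel_right, norm_sub_rev y x] at h1
      exact div_le_div_of_nonneg_right h1 (d.s_pos t).le

variable {o : N}

/-- the argument of the rescaled function -/
noncomputable def arg (_ : Data N) (o : N) (t : ℕ × ℕ) (x : X) : X :=
  (o : X) + d.l⁻¹ • (x - d.c t)

/-- the pieces -/
noncomputable def pcs (h : ℕ → Lip0 N o) (t : ℕ × ℕ) (x : X) : ℝ :=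
  d.φ t x * (h t.1).fn (d.π (d.arg d o t x))

theorem linv_le : d.l⁻¹ ≤ 1 := inv_le_one_of_one_le₀ d.hl

theorem linv_nonneg : 0 ≤ d.l⁻¹ := inv_nonneg.2 d.l_pos.le

theorem a_bd (f : Lip0 N o) (t : ℕ × ℕ) {x : X} (hx : ‖x - d.c t‖ ≤ 2 * d.s t) :
    |f.fn (d.π (d.arg d o t x))| ≤ ‖f‖ * (3 * d.s t) := by
  refine (f.abs_fn_le _).trans (mul_le_mul_of_nonneg_left ?_ (norm_nonneg _))
  rw [Subtype.dist_eq, dist_eq_norm]
  have e1 : (d.π (d.arg d o t x) : X) - o = ((d.π (d.arg d o t x) : X) - d.arg d o t x) +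
      d.l⁻¹ • (x - d.c t) := by
    unfold arg; abel
  rw [e1]
  refine (norm_add_le _ _).trans ?_
  have h1 := d.hπ (d.arg d o t x)
  have h2 : ‖d.l⁻¹ • (x - d.c t)‖ ≤ 1 * (2 * d.s t) := by
    rw [norm_smul, Real.norm_eq_abs, abs_of_nonneg d.linv_nonneg]
    have := d.linv_le
    have := d.linv_nonneg
    gcongr
  have h3 := d.hsD t
  linarith

theorem a_lip (f : Lip0 N o) (t : ℕ × ℕ) (m m' : N) :
    |f.fn (d.π (d.arg d o t m)) - f.fn (d.π (d.arg d o t m'))| ≤ ‖f‖ * (d.C * dist m m') := by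
  refine (f.abs_sub_le _ _).trans (mul_le_mul_of_nonneg_left ?_ (norm_nonneg _))
  rcases eq_or_ne m m' with rfl | hne
  · rw [dist_self, dist_self, mul_zero]
  · refine (d.dist_π _ _).trans ?_
    have e1 : d.arg d o t m - d.arg d o t m' = d.l⁻¹ • ((m : X) - m') := by
      unfold arg
      rw [add_sub_add_left_eq_sub, ← smul_sub, sub_sub_sub_cancel_right]
    have h1 : ‖d.arg d o t m - d.arg d o t m'‖ ≤ 1 * dist m m' := by
      rw [e1, norm_smul, Real.norm_eq_abs, abs_of_nonneg d.linv_nonneg, Subtype.dist_eq,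
        dist_eq_norm]
      have := d.linv_le
      gcongr
    have h2 := d.le_of_ne hne
    have h3 := mul_le_mul_of_nonneg_right d.C_ge (dist_nonneg (x := m) (y := m'))
    linarith

theorem pcs_zero (h : ℕ → Lip0 N o) {t : ℕ × ℕ} {x : X} (hx : 2 * d.s t ≤ ‖x - d.c t‖) :
    d.pcs h t x = 0 := by
  unfold pcs
  rw [d.φ_zero hx, zero_mul]

theorem pcs_lip (h : ℕ → Lip0 N o) (t : ℕ × ℕ) (m m' : N) :
    |d.pcs h t m - d.pcs h t m'| ≤ ‖h t.1‖ * ((3 + d.C) * dist m m') := by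
  have key : ∀ m m' : N, ‖(m : X) - d.c t‖ ≤ 2 * d.s t →
      |d.pcs h t m - d.pcs h t m'| ≤ ‖h t.1‖ * ((3 + d.C) * dist m m') := by
    intro m m' hm
    have e1 : d.pcs h t m - d.pcs h t m' = (d.φ t m - d.φ t m') *
        (h t.1).fn (d.π (d.arg d o t m)) + d.φ t m' * ((h t.1).fn (d.π (d.arg d o t m)) -
        (h t.1).fn (d.π (d.arg d o t m'))) := by
      unfold pcs; ring
    rw [e1]
    refine (abs_add_le _ _).trans ?_
    rw [abs_mul, abs_mul, abs_of_nonneg (d.φ_nonneg t m')]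
    have h1 := d.φ_lip t (m : X) m'
    have h2 := d.a_bd (h t.1) t hm
    have h3 := d.a_lip (h t.1) t m m'
    have h4 := d.φ_le t (m' : X)
    have h5 := d.φ_nonneg t (m' : X)
    rw [← dist_eq_norm, ← Subtype.dist_eq] at h1
    have h6 : |d.φ t m - d.φ t m'| * |(h t.1).fn (d.π (d.arg d o t m))| ≤
        dist m m' / d.s t * (‖h t.1‖ * (3 * d.s t)) := by
      have := d.s_pos t
      gcongr
    have h7 : d.φ t m' * |(h t.1).fn (d.π (d.arg d o t m)) -
        (h t.1).fn (d.π (d.arg d o t m'))| ≤ 1 * (‖h t.1‖ * (d.C * dist m m')) := by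
      gcongr
    have h8 : dist m m' / d.s t * (‖h t.1‖ * (3 * d.s t)) = ‖h t.1‖ * (3 * dist m m') := by
      have := (d.s_pos t).ne'
      field_simp
    rw [h8] at h6
    linarith
  rcases le_total ‖(m : X) - d.c t‖ (2 * d.s t) with hm | hm
  · exact key m m' hm
  · rcases le_total ‖(m' : X) - d.c t‖ (2 * d.s t) with hm' | hm'
    · rw [abs_sub_comm, dist_comm]
      exact key m' m hm'
    · rw [d.pcs_zero h hm, d.pcs_zero h hm', sub_self, abs_zero]
      have := d.C_nonneg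
      positivity

/-- balls are disjoint -/
theorem ball_unique {t t' : ℕ × ℕ} {x : X} (h : ‖x - d.c t‖ < 2 * d.s t)
    (h' : ‖x - d.c t'‖ < 2 * d.s t') : t = t' := by
  by_contra hne
  have h1 := d.hc t t' hne
  have h2 : ‖d.c t - d.c t'‖ ≤ ‖x - d.c t'‖ + ‖x - d.c t‖ := by
    have : d.c t - d.c t' = (x - d.c t') - (x - d.c t) := by abel
    rw [this]
    exact norm_sub_le _ _
  linarith

theorem gl_eq (F : ℕ × ℕ → X → ℝ) {t : ℕ × ℕ} {x : X} (h : ‖x - d.c t‖ < 2 * d.s t) :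
    gl d.c d.s F x = F t x := by
  have hex : ∃ t, ‖x - d.c t‖ < 2 * d.s t := ⟨t, h⟩
  unfold gl
  rw [dif_pos hex, d.ball_unique hex.choose_spec h]

theorem gl_lip (h : ℕ → Lip0 N o) {K : ℝ} (hK : ∀ i, ‖h i‖ ≤ K) (m m' : N) :
    |gl d.c d.s (d.pcs h) m - gl d.c d.s (d.pcs h) m'| ≤ 2 * (K * (3 + d.C)) * dist m m' := by
  have hK0 : 0 ≤ K := (norm_nonneg _).trans (hK 0)
  have hC := d.C_nonneg
  have hd : 0 ≤ dist m m' := dist_nonneg
  have hb : ∀ t, |d.pcs h t m - d.pcs h t m'| ≤ K * (3 + d.C) * dist m m' := fun t => by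
    refine (d.pcs_lip h t m m').trans ?_
    rw [← mul_assoc]
    have := hK t.1
    gcongr
  have hpos : 0 ≤ K * (3 + d.C) * dist m m' := by positivity
  by_cases h1 : ∃ t, ‖(m : X) - d.c t‖ < 2 * d.s t
  · obtain ⟨t, ht⟩ := h1
    rw [d.gl_eq _ ht]
    by_cases h2 : ∃ t', ‖(m' : X) - d.c t'‖ < 2 * d.s t'
    · obtain ⟨t', ht'⟩ := h2
      rw [d.gl_eq _ ht']
      rcases eq_or_ne t t' with rfl | hne
      · have := hb t; linarith
      · have z1 : d.pcs h t m' = 0 := d.pcs_zero h (by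
          by_contra hlt
          exact hne (d.ball_unique (not_le.1 hlt) ht'))
        have z2 : d.pcs h t' m = 0 := d.pcs_zero h (by
          by_contra hlt
          exact hne (d.ball_unique ht (not_le.1 hlt)))
        have e1 : d.pcs h t m - d.pcs h t' m' = (d.pcs h t m - d.pcs h t m') +
            (d.pcs h t' m - d.pcs h t' m') := by rw [z1, z2]; ring
        rw [e1]
        refine (abs_add_le _ _).trans ?_
        have := hb t; have := hb t'
        linarith
    · have z0 : gl d.c d.s (d.pcs h) (m' : X) = 0 := by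
        unfold gl; rw [dif_neg h2]
      have z1 : d.pcs h t m' = 0 := d.pcs_zero h (by
        by_contra hlt
        exact h2 ⟨t, not_le.1 hlt⟩)
      rw [z0, ← z1]
      have := hb t; linarith
  · have z0 : gl d.c d.s (d.pcs h) (m : X) = 0 := by
      unfold gl; rw [dif_neg h1]
    rw [z0]
    by_cases h2 : ∃ t', ‖(m' : X) - d.c t'‖ < 2 * d.s t'
    · obtain ⟨t', ht'⟩ := h2
      rw [d.gl_eq _ ht']
      have z1 : d.pcs h t' m = 0 := d.pcs_zero h (by
        by_contra hlt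
        exact h1 ⟨t', not_le.1 hlt⟩)
      rw [← z1]
      have := hb t'; linarith
    · have z0' : gl d.c d.s (d.pcs h) (m' : X) = 0 := by
        unfold gl; rw [dif_neg h2]
      rw [z0', sub_zero, abs_zero]
      linarith

theorem gl_add (h h' : ℕ → Lip0 N o) (x : X) : gl d.c d.s (d.pcs (fun i => h i + h' i)) x =
    gl d.c d.s (d.pcs h) x + gl d.c d.s (d.pcs h') x := by
  unfold gl
  split_ifs
  · unfold pcs
    rw [Lip0.fn_add]
    ring
  · rw [add_zero]

theorem gl_smul (a : ℝ) (h : ℕ → Lip0 N o) (x : X) : gl d.c d.s (d.pcs (fun i => a • h i)) x =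
    a * gl d.c d.s (d.pcs h) x := by
  unfold gl
  split_ifs
  · unfold pcs
    rw [Lip0.fn_smul]
    ring
  · rw [mul_zero]

/-- the operator `A` -/
theorem exists_A (o : N) : ∃ A : Li ℕ (Lip0 N o) →L[ℝ] Lip0 N o, ∀ h m,
    (A h).fn m = gl d.c d.s (d.pcs (fun i => h i)) m - gl d.c d.s (d.pcs (fun i => h i)) o := by
  have hK : ∀ h : Li ℕ (Lip0 N o), ∀ i, ‖h i‖ ≤ ‖h‖ := fun h i =>
    lp.norm_apply_le_norm (by simp) h i
  have hlip : ∀ (h : Li ℕ (Lip0 N o)) (m m' : N),
      |(gl d.c d.s (d.pcs (fun i => h i)) m - gl d.c d.s (d.pcs (fun i => h i)) o) -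
        (gl d.c d.s (d.pcs (fun i => h i)) m' - gl d.c d.s (d.pcs (fun i => h i)) o)| ≤
        2 * (‖h‖ * (3 + d.C)) * dist m m' := by
    intro h m m'
    rw [sub_sub_sub_cancel_right]
    exact d.gl_lip _ (hK h) m m'
  have hC := d.C_nonneg
  let T : Li ℕ (Lip0 N o) → Lip0 N o := fun h =>
    Lip0.mk (fun m => gl d.c d.s (d.pcs (fun i => h i)) m - gl d.c d.s (d.pcs (fun i => h i)) o)
      (sub_self _) (2 * (‖h‖ * (3 + d.C))) (by positivity) (hlip h)
  let L : Li ℕ (Lip0 N o) →ₗ[ℝ] Lip0 N o :=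
    { toFun := T
      map_add' := fun h h' => by
        apply Lip0.ext
        intro m
        show gl d.c d.s (d.pcs (fun i => h i + h' i)) m - gl d.c d.s (d.pcs (fun i => h i + h' i)) o
          = (gl d.c d.s (d.pcs (fun i => h i)) m - gl d.c d.s (d.pcs (fun i => h i)) o) +
            (gl d.c d.s (d.pcs (fun i => h' i)) m - gl d.c d.s (d.pcs (fun i => h' i)) o)
        rw [gl_add, gl_add]
        ring
      map_smul' := fun a h => by
        apply Lip0.ext
        intro m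
        show gl d.c d.s (d.pcs (fun i => a • h i)) m - gl d.c d.s (d.pcs (fun i => a • h i)) o
          = a * (gl d.c d.s (d.pcs (fun i => h i)) m - gl d.c d.s (d.pcs (fun i => h i)) o)
        rw [gl_smul, gl_smul]
        ring }
  refine ⟨LinearMap.mkContinuous L (2 * (3 + d.C)) fun h => ?_, fun h m => rfl⟩
  refine (Lip0.norm_le' _ (by positivity) (hlip h)).trans (le_of_eq (by ring))

/-- the approximations of the left inverse -/
noncomputable def qq (g : Lip0 N o) (i : ℕ) (u : N) (n : ℕ) : ℝ :=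
  g.fn (d.π (d.c (i, n) + d.l • ((u : X) - o))) - g.fn (d.π (d.c (i, n)))

theorem qq_lip (g : Lip0 N o) (i : ℕ) (u u' : N) (n : ℕ) :
    |d.qq g i u n - d.qq g i u' n| ≤ ‖g‖ * d.C * dist u u' := by
  unfold qq
  rw [sub_sub_sub_cancel_right, mul_assoc]
  refine (g.abs_sub_le _ _).trans (mul_le_mul_of_nonneg_left ?_ (norm_nonneg _))
  rcases eq_or_ne u u' with rfl | hne
  · rw [dist_self, dist_self, mul_zero]
  · refine (d.dist_π _ _).trans ?_
    have e1 : d.c (i, n) + d.l • ((u : X) - o) - (d.c (i, n) + d.l • ((u' : X) - o)) =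
        d.l • ((u : X) - u') := by
      rw [add_sub_add_left_eq_sub, ← smul_sub, sub_sub_sub_cancel_right]
    rw [e1, norm_smul, Real.norm_eq_abs, abs_of_pos d.l_pos, ← dist_eq_norm, ← Subtype.dist_eq]
    have h2 := d.le_of_ne hne
    unfold C
    linarith

theorem qq_base (g : Lip0 N o) (i n : ℕ) : d.qq g i o n = 0 := by
  unfold qq
  rw [sub_self, smul_zero, add_zero, sub_self]

theorem qq_bdd (g : Lip0 N o) (i : ℕ) (u : N) : Bdd (d.qq g i u) := by
  refine ⟨‖g‖ * d.C * dist u o, fun n => ?_⟩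
  have := d.qq_lip g i u o n
  rwa [qq_base, sub_zero] at this

theorem exists_B (o : N) (U : Ultrafilter ℕ) : ∃ B : Lip0 N o →L[ℝ] Li ℕ (Lip0 N o), ∀ g i u,
    (B g i).fn u = ulim U (d.qq g i u) := by
  have hC := d.C_nonneg
  have hlip : ∀ (g : Lip0 N o) (i : ℕ) (u u' : N),
      |ulim U (d.qq g i u) - ulim U (d.qq g i u')| ≤ ‖g‖ * d.C * dist u u' := fun g i u u' =>
    ulim_abs_sub_le U (d.qq_bdd g i u) (d.qq_bdd g i u') (d.qq_lip g i u u')
  let T : Lip0 N o → ℕ → Lip0 N o := fun g i =>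
    Lip0.mk (fun u => ulim U (d.qq g i u)) (by
      have : d.qq g i o = fun _ => (0 : ℝ) := funext fun n => d.qq_base g i n
      rw [this]
      exact ulim_zero U) (‖g‖ * d.C) (by positivity) (hlip g i)
  have hT : ∀ g i, ‖T g i‖ ≤ ‖g‖ * d.C := fun g i =>
    Lip0.norm_le' _ (by positivity) (hlip g i)
  let L : Lip0 N o →ₗ[ℝ] Li ℕ (Lip0 N o) :=
    { toFun := fun g => ⟨T g, memℓp_infty ⟨‖g‖ * d.C, by
        rintro _ ⟨i, rfl⟩
        exact hT g i⟩⟩
      map_add' := fun g g' => by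
        apply lp.ext
        funext i
        apply Lip0.ext
        intro u
        show ulim U (d.qq (g + g') i u) = ulim U (d.qq g i u) + ulim U (d.qq g' i u)
        rw [← ulim_add U (d.qq_bdd g i u) (d.qq_bdd g' i u)]
        congr 1
        funext n
        unfold qq
        rw [Lip0.fn_add, Lip0.fn_add]
        ring
      map_smul' := fun a g => by
        apply lp.ext
        funext i
        apply Lip0.ext
        intro u
        show ulim U (d.qq (a • g) i u) = a * ulim U (d.qq g i u)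
        rw [← ulim_smul U (d.qq_bdd g i u)]
        congr 1
        funext n
        unfold qq
        rw [Lip0.fn_smul, Lip0.fn_smul]
        ring }
  refine ⟨LinearMap.mkContinuous L d.C fun g => ?_, fun g i x => rfl⟩
  rw [mul_comm]
  exact lp.norm_le_of_forall_le (by positivity) fun i => hT g i

/-- the value of the glued function near the centre -/
theorem value (h : ℕ → Lip0 N o) (i n : ℕ) (u : N)
    (hn : d.l * ‖(u : X) - o‖ + d.D ≤ n) :
    gl d.c d.s (d.pcs h) (d.π (d.c (i, n) + d.l • ((u : X) - o)) : X) = (h i).fn u := by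
  set z : X := d.c (i, n) + d.l • ((u : X) - o) with hz
  have h1 := d.hπ z
  have h2 : ‖(d.π z : X) - d.c (i, n)‖ ≤ d.s (i, n) := by
    have e1 : (d.π z : X) - d.c (i, n) = ((d.π z : X) - z) + d.l • ((u : X) - o) := by
      rw [hz]; abel
    rw [e1]
    refine (norm_add_le _ _).trans ?_
    rw [norm_smul, Real.norm_eq_abs, abs_of_pos d.l_pos]
    have := d.hsn i n
    linarith
  have h3 : ‖(d.π z : X) - d.c (i, n)‖ < 2 * d.s (i, n) := by
    have := d.s_pos (i, n); linarith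
  rw [d.gl_eq _ h3]
  unfold pcs
  rw [d.φ_one h2, one_mul]
  have h4 : d.π (d.arg d o (i, n) (d.π z)) = u := by
    apply d.hπ'
    have e1 : (u : X) - d.arg d o (i, n) (d.π z) = -(d.l⁻¹ • ((d.π z : X) - z)) := by
      have hl := d.l_pos.ne'
      have e2 : (d.π z : X) - z =
        ((d.π z : X) - d.c (i, n)) - d.l • ((u : X) - o) := by
        conv_lhs => rw [show (d.π z : X) - z = (d.π z : X) -
          (d.c (i, n) + d.l • ((u : X) - o)) by rw [← hz]]
        abel
      rw [e2, smul_sub d.l⁻¹ ((d.π z : X) - d.c (i, n)) (d.l • ((u : X) - o)), smul_smul,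
        inv_mul_cancel₀ hl, one_smul]
      unfold arg
      abel
    rw [e1, norm_neg, norm_smul, Real.norm_eq_abs, abs_of_nonneg d.linv_nonneg]
    have h5 := d.hDl
    have hl := d.l_pos
    calc d.l⁻¹ * ‖(d.π z : X) - z‖ ≤ d.l⁻¹ * d.D := by
          have := d.linv_nonneg
          gcongr
      _ < d.e / 2 := by
          rw [inv_mul_lt_iff₀ hl]
          linarith
  rw [h4]

include d in
/-- the factorization -/
theorem factor (o : N) : Cp (Li ℕ (Lip0 N o)) (Lip0 N o) := by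
  let U : Ultrafilter ℕ := hyperfilter ℕ
  have hU : (U : Filter ℕ) ≤ atTop := Nat.hyperfilter_le_atTop
  obtain ⟨A, hA⟩ := d.exists_A o
  obtain ⟨B, hB⟩ := d.exists_B o U
  refine ⟨A, B, fun h => ?_⟩
  apply lp.ext
  funext i
  apply Lip0.ext
  intro u
  rw [hB]
  apply ulim_eq
  refine Tendsto.congr' ?_ tendsto_const_nhds
  apply hU
  obtain ⟨n0, hn0⟩ := exists_nat_ge (d.l * ‖(u : X) - o‖ + d.D)
  filter_upwards [eventually_ge_atTop n0] with n hn
  have hn' : (n0 : ℝ) ≤ n := Nat.cast_le.2 hn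
  unfold qq
  rw [hA, hA, sub_sub_sub_cancel_right, d.value _ i n u (hn0.trans hn')]
  have h2 := d.value (o := o) (fun i => h i) i n o (by
    rw [sub_self, norm_zero, mul_zero, zero_add]
    have : 0 ≤ d.l * ‖(u : X) - o‖ := mul_nonneg d.l_pos.le (norm_nonneg _)
    linarith)
  rw [sub_self, smul_zero, add_zero, Lip0.fn_base] at h2
  rw [h2, sub_zero]

end Data

theorem cp_self (V : Type) [NormedAddCommGroup V] [NormedSpace ℝ V] : Cp V (Li ℕ V) := by
  refine ⟨LinearMap.mkContinuous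
    { toFun := fun v => (⟨fun _ => v, memℓp_infty ⟨‖v‖, by rintro _ ⟨i, rfl⟩; exact le_rfl⟩⟩ :
        Li ℕ V)
      map_add' := fun v w => rfl
      map_smul' := fun a v => rfl } 1 (fun v => ?_),
    LinearMap.mkContinuous
    { toFun := fun h : Li ℕ V => h 0
      map_add' := fun _ _ => rfl
      map_smul' := fun _ _ => rfl } 1 (fun h => ?_), fun v => rfl⟩
  · rw [one_mul]
    exact lp.norm_le_of_forall_le (norm_nonneg _) fun i => le_rfl
  · rw [one_mul]
    exact lp.norm_apply_le_norm (by simp) h 0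

/-- The main theorem. -/
theorem main (hN : IsNet N) (o : N) : Nonempty (Lip0 N o ≃L[ℝ] Li ℕ (Lip0 N o)) := by
  have hp : S_pelc := pelc_of congr_ok prod_ok add_ok curry_ok card_ok
  rcases subsingleton_or_nontrivial X with hX | hX
  · have hc : Cp (Li ℕ (Lip0 N o)) (Lip0 N o) := by
      refine ⟨0, 0, fun v => ?_⟩
      apply lp.ext
      funext i
      apply Lip0.ext
      intro x
      have hx : x = o := Subtype.ext (Subsingleton.elim _ _)
      rw [hx, Lip0.fn_base, Lip0.fn_base]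
    exact hp ℕ (Lip0 N o) (Lip0 N o) hc (cp_self _)
  · obtain ⟨d⟩ := exists_data hN
    exact hp ℕ (Lip0 N o) (Lip0 N o) (d.factor o) (cp_self _)

end

end Pool.Agent.U555.LN
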